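import Pool.Agent.Q229.PL.Fin

/-!
# The pooling problem with one quality and in-degrees at most two is NP-hard

The reduction is from subset sum.  There are two inputs: one of quality `0`, whose capacity is the
target, and one of quality `1`.  For every item there is a pool whose capacity is the item; it
receives flow from both inputs and sends it to two private outputs: the first one pays `2` and needs
quality `0`, the second one pays `1` and accepts everything.  The gain of a pool is a convex
function of its flow from the first input, so that the best possible value is attained only if this
flow is `0` or the whole capacity.
-/

set_option autoImplicit false

namespace Pool.Agent.Results.MP_975cd4_lc.PoolingInNPHard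

open Pool.Agent.NPC Q229.PL

/-- Deciding whether an instance of the pooling problem with exactly one quality, in which every
pool and every output has in-degree at most two, has a feasible solution of cost at most a given
number is `NP`-hard.  If it is in `P`, then `P = NP`. -/
theorem result : NPHardP PoolIn ∧ (InPP PoolIn → ∀ L : Set (List Bool), InNP L → InP L) :=
  ⟨hardI_in.toNPHardP, fun h => NPHard.collapse hardI_in.toNPHardP h⟩

end Pool.Agent.Results.MP_975cd4_lc.PoolingInNPHard
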